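import Pool.Agent.Lib.MP_94c361_co_H.Abs
import Pool.Agent.Lib.MP_94c361_co_U.Asm
import Pool.Agent.Lib.MP_94c361_co_U.Perm
import Pool.Agent.Lib.MP_94c361_co_U.Gauss
import Pool.Agent.Lib.MP_94c361_co_U.LocLe
import Pool.Agent.Lib.MP_94c361_co_U.Fact

/-!
# MP_94c361_co: both bounds for the second moment, union of two random Hamiltonian cycles
-/

set_option autoImplicit false

open scoped BigOperators

namespace Pool.Agent.MP94f

open Pool.Agent.MP94h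

theorem bounds (n : ℕ) (hn : 3 ≤ n) :
    (3 / 2 : ℝ) ^ n * ((full n).card : ℝ) ^ 2 ≤
      ((∑ σ ∈ full n, ∑ τ ∈ full n, (hc σ τ) ^ 2 : ℤ) : ℝ) ∧
    ((∑ σ ∈ full n, ∑ τ ∈ full n, (hc σ τ) ^ 2 : ℤ) : ℝ) ≤
      ((n : ℝ) + 1) ^ 10 * (3 / 2) ^ n * ((full n).card : ℝ) ^ 2 ∧
    ∀ K : ℝ, 0 < K →
      ((((full n) ×ˢ (full n)).filter (fun p =>
        K * (((n : ℝ) + 1) ^ 10 * (3 / 2) ^ n) ≤ ((hc p.1 p.2 ^ 2 : ℤ) : ℝ))).card : ℝ) ≤
        ((full n).card : ℝ) ^ 2 / K := by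
  have hcard : (full n).card = (n - 1).factorial := by
    unfold full
    rw [Equiv.Perm.card_of_cycleType_singleton (by omega) (by simp)]
    simp
  have hF : (n.factorial : ℝ) = n * ((full n).card : ℝ) := by
    rw [hcard, ← Nat.mul_factorial_pred (show n ≠ 0 by omega)]
    push_cast
    rfl
  have hlow : (3 / 2 : ℝ) ^ n * ((full n).card : ℝ) ^ 2 ≤
      ((∑ σ ∈ full n, ∑ τ ∈ full n, (hc σ τ) ^ 2 : ℤ) : ℝ) := by
    have h1 := main_ineq (n := n) (by omega)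
    have h2 := eo_ge (n := n) (by omega)
    have h3 := growth n
    have h4 : 2 * ((∑ σ ∈ full n, ∑ τ ∈ full n, heo σ τ : ℕ) : ℝ) +
        (if Even n then 8 else -8) * ((full n).card : ℝ) ^ 2 ≤
        ((∑ σ ∈ full n, ∑ τ ∈ full n, (hc σ τ) ^ 2 : ℤ) : ℝ) := by
      have h5 : (((2 * ((∑ σ ∈ full n, ∑ τ ∈ full n, heo σ τ : ℕ) : ℤ) +
        (if Even n then 8 else -8) * ((full n).card : ℤ) ^ 2 : ℤ)) : ℝ) ≤
        ((∑ σ ∈ full n, ∑ τ ∈ full n, (hc σ τ) ^ 2 : ℤ) : ℝ) := by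
        exact_mod_cast h1
      refine le_trans (le_of_eq ?_) h5
      rw [Int.cast_add, Int.cast_mul, Int.cast_mul, Int.cast_pow, Int.cast_natCast,
        Int.cast_natCast]
      split_ifs <;> norm_num
    have h6 : (2 * (((3 : ℝ) / 2) ^ n + (1 / 2) ^ n)) * ((full n).card : ℝ) ^ 2 ≤
        ((∑ σ ∈ full n, ∑ τ ∈ full n, heo σ τ : ℕ) : ℝ) :=
      (mul_le_mul_of_nonneg_right h3 (by positivity)).trans h2
    have h7 : (3 / 2 : ℝ) ^ 3 ≤ (3 / 2 : ℝ) ^ n := pow_le_pow_right₀ (by norm_num) hn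
    have h8 : (0 : ℝ) < (1 / 2 : ℝ) ^ n := by positivity
    have h9 : (-8 : ℝ) ≤ (if Even n then 8 else -8) := by split_ifs <;> norm_num
    have h10 : (3 / 2 : ℝ) ^ n ≤ 4 * ((3 / 2) ^ n + (1 / 2) ^ n) +
        (if Even n then 8 else -8) := by
      have h11 : (3 / 2 : ℝ) ^ 3 = 27 / 8 := by norm_num
      rw [h11] at h7
      linarith
    have h12 := mul_le_mul_of_nonneg_right h10 (sq_nonneg ((full n).card : ℝ))
    linarith
  have hup : ((∑ σ ∈ full n, ∑ τ ∈ full n, (hc σ τ) ^ 2 : ℤ) : ℝ) ≤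
      ((n : ℝ) + 1) ^ 10 * (3 / 2) ^ n * ((full n).card : ℝ) ^ 2 := by
    obtain ⟨μ, hμ, hI, hM⟩ := Pool.Agent.MP94u.exists_gauss
    have h1 := Pool.Agent.MP94u.upper_all (n := n) hI hM
      (fun T S => Pool.Agent.MP94u.count_perm T S) Pool.Agent.MP94u.loc_le
      (Pool.Agent.MP94u.sum_fact n (fun T S => Pool.Agent.MP94u.count_perm T S))
    have h2 : ∑ σ ∈ full n, ∑ τ ∈ full n, (hc σ τ) ^ 2 ≤
        ∑ σ : Equiv.Perm (Fin n), ∑ τ : Equiv.Perm (Fin n), (hc σ τ) ^ 2 := by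
      refine le_trans (Finset.sum_le_sum fun σ _ =>
        Finset.sum_le_sum_of_subset_of_nonneg (Finset.subset_univ _) fun τ _ _ => sq_nonneg _) ?_
      exact Finset.sum_le_sum_of_subset_of_nonneg (Finset.subset_univ _)
        fun σ _ _ => Finset.sum_nonneg fun τ _ => sq_nonneg _
    have h3 : ((∑ σ ∈ full n, ∑ τ ∈ full n, (hc σ τ) ^ 2 : ℤ) : ℝ) ≤
        ((∑ σ : Equiv.Perm (Fin n), ∑ τ : Equiv.Perm (Fin n), (hc σ τ) ^ 2 : ℤ) : ℝ) := by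
      exact_mod_cast h2
    refine (h3.trans h1).trans ?_
    rw [hF]
    have h4 : (n : ℝ) ^ 2 ≤ ((n : ℝ) + 1) ^ 2 := by
      have : (0 : ℝ) ≤ n := Nat.cast_nonneg n
      nlinarith
    calc (3 / 2 : ℝ) ^ n * ((n : ℝ) * ((full n).card : ℝ) * ((n : ℝ) + 1) ^ 4) ^ 2 =
        (n : ℝ) ^ 2 * ((((n : ℝ) + 1) ^ 8 * (3 / 2) ^ n) * ((full n).card : ℝ) ^ 2) := by ring
      _ ≤ ((n : ℝ) + 1) ^ 2 * ((((n : ℝ) + 1) ^ 8 * (3 / 2) ^ n) * ((full n).card : ℝ) ^ 2) :=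
        mul_le_mul_of_nonneg_right h4 (by positivity)
      _ = _ := by ring
  refine ⟨hlow, hup, fun K hK => ?_⟩
  set B : ℝ := ((n : ℝ) + 1) ^ 10 * (3 / 2) ^ n with hB
  have hB0 : 0 < B := by positivity
  set S := ((full n) ×ˢ (full n)).filter (fun p =>
        K * B ≤ ((hc p.1 p.2 ^ 2 : ℤ) : ℝ)) with hS
  have h1 : (S.card : ℝ) * (K * B) ≤ ∑ p ∈ S, ((hc p.1 p.2 ^ 2 : ℤ) : ℝ) := by
    rw [← nsmul_eq_mul]
    exact Finset.card_nsmul_le_sum _ _ _ (fun p hp => (Finset.mem_filter.1 hp).2)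
  have h2 : ∑ p ∈ S, ((hc p.1 p.2 ^ 2 : ℤ) : ℝ) ≤
      ((∑ σ ∈ full n, ∑ τ ∈ full n, (hc σ τ) ^ 2 : ℤ) : ℝ) := by
    rw [← Finset.sum_product']
    push_cast
    exact Finset.sum_le_sum_of_subset_of_nonneg (Finset.filter_subset _ _)
      (fun p _ _ => sq_nonneg _)
  have h3 : (S.card : ℝ) * K * B ≤ ((full n).card : ℝ) ^ 2 * B := by
    calc (S.card : ℝ) * K * B = (S.card : ℝ) * (K * B) := by ring
      _ ≤ _ := (h1.trans h2).trans hup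
      _ = _ := by ring
  rw [le_div_iff₀ hK]
  exact le_of_mul_le_mul_right h3 hB0

theorem full_pos (n : ℕ) (hn : 3 ≤ n) : (0 : ℝ) < ((full n).card : ℝ) ^ 2 := by
  have hcard : (full n).card = (n - 1).factorial := by
    unfold full
    rw [Equiv.Perm.card_of_cycleType_singleton (by omega) (by simp)]
    simp
  rw [hcard]
  positivity

end Pool.Agent.MP94f
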