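import Pool.Agent.Lib.MP_94c361_co_H.Eul

/-!
# MP_94c361_co: a lower bound for the second moment, union of two random Hamiltonian cycles

`full n` is the set of cyclic permutations of all `n` vertices (each Hamiltonian cycle is given by
two of them), `hc σ τ` the coefficient of `∏ x_v ^ 2` in the graph polynomial of the union of the
cycles of `σ` and `τ`, and `heo σ τ` the number of Eulerian orientations of this union.
-/

set_option autoImplicit false

open scoped BigOperators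

namespace Pool.Agent.MP94f

open Pool.Agent.MP94h

theorem lower_result (n : ℕ) (hn : 3 ≤ n) :
    (full n).card = (n - 1).factorial ∧
    2 * ((∑ σ ∈ full n, ∑ τ ∈ full n, heo σ τ : ℕ) : ℤ) +
        (if Even n then 8 else -8) * ((full n).card : ℤ) ^ 2 ≤
      ∑ σ ∈ full n, ∑ τ ∈ full n, (hc σ τ) ^ 2 ∧
    (4 * ∑ k ∈ Finset.range (n / 2 + 1), (n.choose (2 * k) : ℝ) / ((2 * k).choose k : ℝ)) *
        ((full n).card : ℝ) ^ 2 ≤
      ((∑ σ ∈ full n, ∑ τ ∈ full n, heo σ τ : ℕ) : ℝ) ∧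
    (4 * (((3 : ℝ) / 2) ^ n + (1 / 2) ^ n) + (if Even n then 8 else -8)) *
        ((full n).card : ℝ) ^ 2 ≤
      ((∑ σ ∈ full n, ∑ τ ∈ full n, (hc σ τ) ^ 2 : ℤ) : ℝ) := by
  have h1 := main_ineq (n := n) (by omega)
  have h2 := eo_ge (n := n) (by omega)
  have h3 := growth n
  refine ⟨?_, h1, h2, ?_⟩
  · unfold full
    rw [Equiv.Perm.card_of_cycleType_singleton (by omega) (by simp)]
    simp
  · have h4 : 2 * ((∑ σ ∈ full n, ∑ τ ∈ full n, heo σ τ : ℕ) : ℝ) +
        (if Even n then 8 else -8) * ((full n).card : ℝ) ^ 2 ≤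
        ((∑ σ ∈ full n, ∑ τ ∈ full n, (hc σ τ) ^ 2 : ℤ) : ℝ) := by
      have h5 : (((2 * ((∑ σ ∈ full n, ∑ τ ∈ full n, heo σ τ : ℕ) : ℤ) +
        (if Even n then 8 else -8) * ((full n).card : ℤ) ^ 2 : ℤ)) : ℝ) ≤
        ((∑ σ ∈ full n, ∑ τ ∈ full n, (hc σ τ) ^ 2 : ℤ) : ℝ) := by
        exact_mod_cast h1
      refine le_trans (le_of_eq ?_) h5
      rw [Int.cast_add, Int.cast_mul, Int.cast_mul, Int.cast_pow, Int.cast_natCast,
        Int.cast_natCast]
      split_ifs <;> norm_num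
    have h6 : (2 * (((3 : ℝ) / 2) ^ n + (1 / 2) ^ n)) * ((full n).card : ℝ) ^ 2 ≤
        ((∑ σ ∈ full n, ∑ τ ∈ full n, heo σ τ : ℕ) : ℝ) :=
      (mul_le_mul_of_nonneg_right h3 (by positivity)).trans h2
    linarith

end Pool.Agent.MP94f
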